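import Mathlib

set_option autoImplicit false

namespace Pool.Agent.Results.MP_c7efa6_co.Main

/-- The clique graph: its vertices are the maximal cliques of `G` (as vertex sets); distinct
maximal cliques are adjacent iff they share a vertex. -/
def cliqueGraph {V : Type} (G : SimpleGraph V) : SimpleGraph {Q : Set V // Maximal G.IsClique Q} where
  Adj Q R := Q ≠ R ∧ (Q.1 ∩ R.1).Nonempty
  symm := ⟨fun Q R h => ⟨h.1.symm, by rw [Set.inter_comm]; exact h.2⟩⟩
  loopless := ⟨fun Q h => h.1 rfl⟩

/-- The clique graph operator `K` on graphs (with their vertex types). -/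
def K (X : Σ V : Type, SimpleGraph V) : Σ V : Type, SimpleGraph V :=
  ⟨{Q : Set X.1 // Maximal X.2.IsClique Q}, cliqueGraph X.2⟩

/-- The comparability graph of a partial order. -/
def comparabilityGraph {V : Type} (P : PartialOrder V) : SimpleGraph V where
  Adj a b := a ≠ b ∧ (P.le a b ∨ P.le b a)
  symm := ⟨fun _ _ h => ⟨h.1.symm, h.2.symm⟩⟩
  loopless := ⟨fun _ h => h.1 rfl⟩

/-- `K^n` of the comparability graph. -/
def iterated {V : Type} (P : PartialOrder V) (n : ℕ) : Σ V : Type, SimpleGraph V :=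
  K^[n] ⟨V, comparabilityGraph P⟩

/-- Collapsing iterated clique graphs: some `K^n` has exactly one vertex. -/
def Collapsing {V : Type} (P : PartialOrder V) : Prop :=
  ∃ n : ℕ, Nat.card (iterated P n).1 = 1

/-- The fixed point property. -/
def FixedPointProperty {V : Type} (P : PartialOrder V) : Prop :=
  ∀ f : V → V, (∀ a b, P.le a b → P.le (f a) (f b)) → ∃ x, f x = x

/-! ### An invariant of the clique graph operator -/

/-- `G` carries a `ZMod 2`-valued cocycle on its clique complex that is not a coboundary. -/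
def Twisted {V : Type} (G : SimpleGraph V) : Prop :=
  ∃ ε : V → V → ZMod 2, (∀ a b, G.Adj a b → ε a b = ε b a) ∧
    (∀ a b c, G.Adj a b → G.Adj b c → G.Adj c a → ε a b + ε b c + ε c a = 0) ∧
    ¬ ∃ f : V → ZMod 2, ∀ a b, G.Adj a b → ε a b = f a + f b

theorem add_self2 (x : ZMod 2) : x + x = 0 := CharTwo.add_self_eq_zero x

theorem twisted_step {V : Type} [Finite V] (G : SimpleGraph V) (h : Twisted G) :
    Twisted (cliqueGraph G) := by
  classical
  obtain ⟨ε, hsymm, htri, hnot⟩ := h
  have hpot : ∀ Q : {Q : Set V // Maximal G.IsClique Q}, ∃ f : V → ZMod 2,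
      ∀ a ∈ Q.1, ∀ b ∈ Q.1, a ≠ b → ε a b = f a + f b := by
    rintro ⟨Q, hQ⟩
    by_cases hne : Q.Nonempty
    · obtain ⟨q, hq⟩ := hne
      refine ⟨fun a => if a = q then 0 else ε q a, ?_⟩
      intro a ha b hb hab
      have hab' : G.Adj a b := hQ.1 ha hb hab
      show ε a b = (if a = q then 0 else ε q a) + (if b = q then 0 else ε q b)
      by_cases h1 : a = q
      · have h2 : b ≠ q := fun h => hab (h1.trans h.symm)
        rw [if_pos h1, if_neg h2, zero_add, h1]
      · by_cases h2 : b = q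
        · rw [if_neg h1, if_pos h2, add_zero, h2]
          rw [h2] at hab'
          exact hsymm _ _ hab'
        · rw [if_neg h1, if_neg h2]
          have hqa : G.Adj q a := hQ.1 hq ha (Ne.symm h1)
          have hbq : G.Adj b q := hQ.1 hb hq h2
          have ht := htri q a b hqa hab' hbq
          rw [hsymm b q hbq] at ht
          have h3 := add_self2 (ε q a)
          have h4 := add_self2 (ε q b)
          linear_combination ht - h3 - h4
    · exact ⟨fun _ => 0, fun a ha => absurd ⟨a, ha⟩ hne⟩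
  choose f hf using hpot
  let ε' : {Q : Set V // Maximal G.IsClique Q} → {Q : Set V // Maximal G.IsClique Q} → ZMod 2 :=
    fun Q R => if h : (Q.1 ∩ R.1).Nonempty then f Q h.some + f R h.some else 0
  let δ : V → V → ZMod 2 := fun a b => if a = b then 0 else ε a b
  have hδ : ∀ Q : {Q : Set V // Maximal G.IsClique Q}, ∀ a ∈ Q.1, ∀ b ∈ Q.1,
      f Q a + f Q b = δ a b := by
    intro Q a ha b hb
    show _ = (if a = b then 0 else ε a b)
    by_cases hab : a = b
    · rw [if_pos hab, hab, add_self2]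
    · rw [if_neg hab, hf Q a ha b hb hab]
  have hind : ∀ Q R : {Q : Set V // Maximal G.IsClique Q}, ∀ w, w ∈ Q.1 → w ∈ R.1 →
      ε' Q R = f Q w + f R w := by
    intro Q R w hwQ hwR
    have hne : (Q.1 ∩ R.1).Nonempty := ⟨w, hwQ, hwR⟩
    show (if h : (Q.1 ∩ R.1).Nonempty then f Q h.some + f R h.some else 0) = _
    rw [dif_pos hne]
    have hs := hne.some_mem
    have h1 := hδ Q _ hs.1 w hwQ
    have h2 := hδ R _ hs.2 w hwR
    have h3 := add_self2 (f Q w)
    have h4 := add_self2 (f R w)
    have h5 : f Q hne.some + f Q w = f R hne.some + f R w := h1.trans h2.symm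
    have h6 := add_self2 (f R hne.some)
    linear_combination h5 - h3 + h6
  have hδcomm : ∀ a b, (a = b ∨ G.Adj a b) → δ a b = δ b a := by
    intro a b hab
    show (if a = b then 0 else ε a b) = (if b = a then 0 else ε b a)
    rcases hab with rfl | h
    · rfl
    · rw [if_neg h.ne, if_neg h.ne.symm, hsymm a b h]
  have hδtri : ∀ a b c, (a = b ∨ G.Adj a b) → (b = c ∨ G.Adj b c) → (c = a ∨ G.Adj c a) →
      δ a b + δ b c + δ c a = 0 := by
    intro a b c hab hbc hca
    by_cases e1 : a = b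
    · subst e1
      have h1 : δ a a = 0 := if_pos rfl
      rw [h1, zero_add, hδcomm c a hca, add_self2]
    · by_cases e2 : b = c
      · subst e2
        have h1 : δ b b = 0 := if_pos rfl
        rw [h1, add_zero, hδcomm a b hab, add_self2]
      · by_cases e3 : c = a
        · subst e3
          have h1 : δ c c = 0 := if_pos rfl
          rw [h1, add_zero, hδcomm b c hbc, add_self2]
        · show (if a = b then 0 else ε a b) + (if b = c then 0 else ε b c) +
            (if c = a then 0 else ε c a) = 0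
          rw [if_neg e1, if_neg e2, if_neg e3]
          exact htri a b c (hab.resolve_left e1) (hbc.resolve_left e2) (hca.resolve_left e3)
  have hcl : ∀ Q : {Q : Set V // Maximal G.IsClique Q}, ∀ a ∈ Q.1, ∀ b ∈ Q.1,
      (a = b ∨ G.Adj a b) := by
    intro Q a ha b hb
    by_cases hab : a = b
    · exact Or.inl hab
    · exact Or.inr (Q.2.1 ha hb hab)
  have hmax : ∀ S : Set V, G.IsClique S → ∃ Q : {Q : Set V // Maximal G.IsClique Q}, S ⊆ Q.1 := by
    intro S hS
    obtain ⟨Q, hle, hQ⟩ := Finite.exists_le_maximal hS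
    exact ⟨⟨Q, hQ⟩, hle⟩
  refine ⟨ε', ?_, ?_, ?_⟩
  · rintro Q R ⟨_, w, hwQ, hwR⟩
    rw [hind Q R w hwQ hwR, hind R Q w hwR hwQ, add_comm]
  · rintro Q R S ⟨_, w, hwQ, hwR⟩ ⟨_, u, huR, huS⟩ ⟨_, v, hvS, hvQ⟩
    rw [hind Q R w hwQ hwR, hind R S u huR huS, hind S Q v hvS hvQ]
    have h1 := hδ Q v hvQ w hwQ
    have h2 := hδ R w hwR u huR
    have h3 := hδ S u huS v hvS
    have h4 := hδtri v w u (hcl Q v hvQ w hwQ) (hcl R w hwR u huR) (hcl S u huS v hvS)
    rw [← h1, ← h2, ← h3] at h4
    linear_combination h4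
  · rintro ⟨g, hg⟩
    apply hnot
    have hsing : ∀ v : V, ∃ Q : {Q : Set V // Maximal G.IsClique Q}, v ∈ Q.1 := by
      intro v
      obtain ⟨Q, hQ⟩ := hmax {v} (Set.subsingleton_singleton.pairwise _)
      exact ⟨Q, hQ rfl⟩
    choose q hq using hsing
    have hglob : ∀ Q : {Q : Set V // Maximal G.IsClique Q}, ∀ v ∈ Q.1,
        f (q v) v + g (q v) = f Q v + g Q := by
      intro Q v hv
      by_cases hQ : q v = Q
      · rw [hQ]
      · have hadj : (cliqueGraph G).Adj (q v) Q := ⟨hQ, v, hq v, hv⟩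
        have h1 := hg _ _ hadj
        rw [hind (q v) Q v (hq v) hv] at h1
        have h2 := add_self2 (f Q v)
        have h3 := add_self2 (g (q v))
        linear_combination h1 - h2 + h3
    refine ⟨fun v => f (q v) v + g (q v), ?_⟩
    intro a b hab
    obtain ⟨Q, hQ⟩ := hmax {a, b} (by
      rw [SimpleGraph.isClique_pair]
      intro _
      exact hab)
    have haQ : a ∈ Q.1 := hQ (by simp)
    have hbQ : b ∈ Q.1 := hQ (by simp)
    show ε a b = (f (q a) a + g (q a)) + (f (q b) b + g (q b))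
    rw [hglob Q a haQ, hglob Q b hbQ, hf Q a haQ b hbQ hab.ne]
    have h2 := add_self2 (g Q)
    linear_combination - h2

theorem twisted_iterate (n : ℕ) : ∀ X : Σ V : Type, SimpleGraph V, Finite X.1 → Twisted X.2 →
    Finite (K^[n] X).1 ∧ Twisted (K^[n] X).2 := by
  induction n with
  | zero => intro X h1 h2; exact ⟨h1, h2⟩
  | succ n ih =>
    intro X h1 h2
    rw [Function.iterate_succ_apply]
    have := h1
    apply ih
    · show Finite {Q : Set X.1 // Maximal X.2.IsClique Q}
      infer_instance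
    · exact twisted_step X.2 h2

theorem not_one (X : Σ V : Type, SimpleGraph V) (h : Twisted X.2) : Nat.card X.1 ≠ 1 := by
  intro hc
  obtain ⟨hs, _⟩ := Nat.card_eq_one_iff_unique.mp hc
  obtain ⟨ε, _, _, hnot⟩ := h
  apply hnot
  refine ⟨fun _ => 0, fun a b hab => ?_⟩
  exact absurd (Subsingleton.elim a b) hab.ne

/-! ### The 13-element ordered set (face poset of the hemicube) -/

def up : List ℕ := [1, 2, 4, 1199, 2359, 38, 4551, 133, 259, 7687, 1027, 2053, 4102]
def dn : List ℕ := [4057, 6010, 6908, 8, 16, 56, 64, 200, 336, 512, 1544, 2576, 4672]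

@[reducible] def Le (a b : Fin 13) : Prop := (up.getD a.val 0).testBit b.val = true

theorem le_refl' : ∀ a, Le a a := by decide +kernel
theorem le_trans' : ∀ a b, Le a b → ∀ c, Le b c → Le a c := by decide +kernel
theorem le_antisymm' : ∀ a b, Le a b → Le b a → a = b := by decide +kernel
theorem le_dn : ∀ a b, Le a b → (dn.getD b.val 0).testBit a.val = true := by decide +kernel

@[reducible] def P13 : PartialOrder (Fin 13) where
  le := Le
  lt := fun a b => Le a b ∧ ¬ Le b a
  lt_iff_le_not_ge := fun _ _ => Iff.rfl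
  le_refl := le_refl'
  le_trans := fun a b c h1 h2 => le_trans' a b h1 c h2
  le_antisymm := le_antisymm'

def eps : List (List ℕ) :=
  [[0, 0, 0, 0, 0, 0, 0, 0, 0, 0, 0, 0, 0],
   [0, 0, 0, 0, 1, 0, 1, 0, 1, 0, 0, 0, 1],
   [0, 0, 0, 0, 1, 0, 0, 0, 0, 1, 0, 1, 0],
   [0, 0, 0, 0, 0, 0, 0, 0, 0, 0, 0, 0, 0],
   [0, 1, 1, 0, 0, 1, 0, 0, 0, 0, 0, 0, 0],
   [0, 0, 0, 0, 1, 0, 0, 0, 0, 0, 0, 0, 0],
   [0, 1, 0, 0, 0, 0, 0, 0, 0, 0, 0, 0, 0],
   [0, 0, 0, 0, 0, 0, 0, 0, 0, 0, 0, 0, 0],
   [0, 1, 0, 0, 0, 0, 0, 0, 0, 0, 0, 0, 0],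
   [0, 0, 1, 0, 0, 0, 0, 0, 0, 0, 0, 0, 1],
   [0, 0, 0, 0, 0, 0, 0, 0, 0, 0, 0, 0, 0],
   [0, 0, 1, 0, 0, 0, 0, 0, 0, 0, 0, 0, 0],
   [0, 1, 0, 0, 0, 0, 0, 0, 0, 1, 0, 0, 0]]

def epsF (a b : Fin 13) : ZMod 2 := (((eps.getD a.val []).getD b.val 0 : ℕ) : ZMod 2)

@[reducible] def Comp (a b : Fin 13) : Prop := a ≠ b ∧ (Le a b ∨ Le b a)

theorem eps_symm : ∀ a b, Comp a b → epsF a b = epsF b a := by decide +kernel
theorem eps_tri : ∀ a b, Comp a b → ∀ c, Comp b c → Comp c a →
    epsF a b + epsF b c + epsF c a = 0 := by decide +kernel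
theorem eps_loop : epsF 3 5 + epsF 5 4 + epsF 4 8 + epsF 8 6 + epsF 6 7 + epsF 7 3 = 1 := by decide +kernel

theorem base_twisted : Twisted (comparabilityGraph P13) := by
  refine ⟨epsF, eps_symm, fun a b c h1 h2 h3 => eps_tri a b h1 c h2 h3, ?_⟩
  rintro ⟨f, hf⟩
  have e0 := hf 3 5 (by show Comp 3 5; decide +kernel)
  have e1 := hf 5 4 (by show Comp 5 4; decide +kernel)
  have e2 := hf 4 8 (by show Comp 4 8; decide +kernel)
  have e3 := hf 8 6 (by show Comp 8 6; decide +kernel)
  have e4 := hf 6 7 (by show Comp 6 7; decide +kernel)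
  have e5 := hf 7 3 (by show Comp 7 3; decide +kernel)
  have hl := eps_loop
  rw [e0, e1, e2, e3, e4, e5] at hl
  have s3 := add_self2 (f 3)
  have s4 := add_self2 (f 4)
  have s5 := add_self2 (f 5)
  have s6 := add_self2 (f 6)
  have s7 := add_self2 (f 7)
  have s8 := add_self2 (f 8)
  have : (1 : ZMod 2) = 0 := by linear_combination -hl + s3 + s4 + s5 + s6 + s7 + s8
  exact absurd this (by decide)

/-! ### The fixed point property by verified exhaustive search -/

/-- forcing evaluation of a natural number -/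
def force {α : Type} (n : ℕ) (f : ℕ → α) : α :=
  Nat.rec (motive := fun _ => α) (f 0) (fun k _ => f (k + 1)) n

theorem force_eq {α : Type} (n : ℕ) (f : ℕ → α) : force n f = f n := by
  cases n <;> rfl

def maskOf (us ds l : List ℕ) : ℕ :=
  ds.foldl (fun a u => a &&& dn.getD (l.getD u 13) 0)
    (us.foldl (fun a u => a &&& up.getD (l.getD u 13) 0) 8191)

def step (us ds : List ℕ) (k : ℕ) (L : List (List ℕ)) : List (List ℕ) :=
  L.flatMap fun l => force (maskOf us ds l) fun m =>
    ((List.range 13).filter (fun y => m.testBit y && !(Nat.beq y k))).map (fun y => l ++ [y])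

theorem foldl_land (g : ℕ → ℕ) (y : ℕ) (us : List ℕ) : ∀ a : ℕ,
    (us.foldl (fun a u => a &&& g u) a).testBit y = (a.testBit y && us.all (fun u => (g u).testBit y)) := by
  induction us with
  | nil => intro a; simp
  | cons u us ih =>
    intro a
    rw [List.foldl_cons, ih, Nat.testBit_and, List.all_cons, Bool.and_assoc]

theorem mem_step (d : ℕ → ℕ) (us ds : List ℕ) (k : ℕ) (L : List (List ℕ)) (hd : d k < 13)
    (hk : d k ≠ k) (hmem : (List.range k).map d ∈ L)
    (hus : ∀ u ∈ us, u < k ∧ (up.getD (d u) 0).testBit (d k) = true)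
    (hds : ∀ u ∈ ds, u < k ∧ (dn.getD (d u) 0).testBit (d k) = true) :
    (List.range (k + 1)).map d ∈ step us ds k L := by
  unfold step
  rw [List.mem_flatMap]
  refine ⟨_, hmem, ?_⟩
  rw [force_eq, List.mem_map]
  refine ⟨d k, ?_, by rw [List.range_succ, List.map_append]; rfl⟩
  rw [List.mem_filter]
  refine ⟨List.mem_range.mpr hd, ?_⟩
  have hget : ∀ u, u < k → ((List.range k).map d).getD u 13 = d u := by
    intro u hu
    rw [List.getD_eq_getElem _ _ (by simpa using hu)]
    simp
  rw [Bool.and_eq_true]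
  constructor
  · unfold maskOf
    rw [foldl_land (fun u => dn.getD (((List.range k).map d).getD u 13) 0),
      foldl_land (fun u => up.getD (((List.range k).map d).getD u 13) 0),
      Bool.and_eq_true, Bool.and_eq_true, List.all_eq_true, List.all_eq_true]
    refine ⟨⟨?_, ?_⟩, ?_⟩
    · have h8 : ∀ y < 13, (8191 : ℕ).testBit y = true := by decide
      exact h8 _ hd
    · intro u hu
      rw [hget u (hus u hu).1]
      exact (hus u hu).2
    · intro u hu
      rw [hget u (hds u hu).1]
      exact (hds u hu).2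
  · cases hb : Nat.beq (d k) k
    · rfl
    · exact absurd (Nat.eq_of_beq_eq_true hb) hk

def usL : List (List ℕ) := [[], [], [], [], [], [3, 4], [], [3, 6], [4, 6], [], [3, 9], [4, 9], [6, 9]]
def dsL : List (List ℕ) := [[], [], [], [0, 1, 2], [0, 1, 2], [1, 2], [0, 1, 2], [0, 2], [0, 1], [0, 1, 2], [0, 1], [0, 2], [1, 2]]

def run (n : ℕ) : List (List ℕ) :=
  Nat.rec (motive := fun _ => List (List ℕ)) [[]]
    (fun k L => step (usL.getD k []) (dsL.getD k []) k L) n

theorem run_empty : (run 13).isEmpty = true := by decide +kernel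

theorem us_ok : ∀ k : Fin 13, ∀ u ∈ usL.getD k.val [], u < k.val ∧ Le (Fin.ofNat 13 u) k := by
  decide +kernel
theorem ds_ok : ∀ k : Fin 13, ∀ u ∈ dsL.getD k.val [], u < k.val ∧ Le k (Fin.ofNat 13 u) := by
  decide +kernel

theorem fpp : FixedPointProperty P13 := by
  intro f hf
  by_contra hcon
  push Not at hcon
  let d : ℕ → ℕ := fun k => (f (Fin.ofNat 13 k)).val
  have hval : ∀ k : Fin 13, d k.val = (f k).val := by
    intro k
    have : Fin.ofNat 13 k.val = k := by revert k; decide
    show (f (Fin.ofNat 13 k.val)).val = _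
    rw [this]
  have hmem : ∀ n, n ≤ 13 → (List.range n).map d ∈ run n := by
    intro n
    induction n with
    | zero => intro _; show ([] : List ℕ) ∈ [[]]; simp
    | succ n ih =>
      intro hn
      have hlt : n < 13 := by omega
      have hk := hval ⟨n, hlt⟩
      show (List.range (n + 1)).map d ∈ step (usL.getD n []) (dsL.getD n []) n (run n)
      apply mem_step d _ _ n _ (f _).isLt
      · intro h
        apply hcon ⟨n, hlt⟩
        exact Fin.ext (hk.symm.trans h)
      · exact ih (by omega)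
      · intro u hu
        obtain ⟨h1, h2⟩ := us_ok ⟨n, hlt⟩ u hu
        refine ⟨h1, ?_⟩
        have h3 : Le (f (Fin.ofNat 13 u)) (f ⟨n, hlt⟩) := hf _ _ h2
        rw [hk]
        exact h3
      · intro u hu
        obtain ⟨h1, h2⟩ := ds_ok ⟨n, hlt⟩ u hu
        refine ⟨h1, ?_⟩
        have h3 : Le (f ⟨n, hlt⟩) (f (Fin.ofNat 13 u)) := hf _ _ h2
        rw [hk]
        exact le_dn _ _ h3
  have h13 := hmem 13 le_rfl
  have he := run_empty
  rw [List.isEmpty_iff] at he
  rw [he] at h13
  simp at h13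

/-- There is a 13-element ordered set with the fixed point property whose iterated clique graphs
never collapse to one vertex. -/
theorem result : ∃ P : PartialOrder (Fin 13), FixedPointProperty P ∧ ¬ Collapsing P := by
  refine ⟨P13, fpp, ?_⟩
  rintro ⟨n, hn⟩
  have h := twisted_iterate n ⟨Fin 13, comparabilityGraph P13⟩
    (inferInstanceAs (Finite (Fin 13))) base_twisted
  exact not_one _ h.2 hn

end Pool.Agent.Results.MP_c7efa6_co.Main
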